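import Pool.Agent.H863Z.PS.Defs
import Pool.Agent.H863Z.PS.Main

namespace Pool.Agent.Results.MP_17ab9e_co.ANotWeaklyNormal

open H863Z.PS

/-- There is a function of the class `PS^-` in `12` variables which is affine on no
`6`-dimensional flat of `F_2^12`. -/
theorem result : ∃ f : Vec (2 * 6) → ZMod 2, IsPSMinus (k := 6) f ∧ ¬ IsWeaklyNormal (k := 6) f :=
  H863Z.PS.main

end Pool.Agent.Results.MP_17ab9e_co.ANotWeaklyNormal
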